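import Pool.Agent.Y833.SD.C12c
import Pool.Agent.Y258.SX.XStmts

set_option autoImplicit false
set_option linter.unusedSectionVars false

/-!
# Job X12 of helper258: second order bias, neighbouring levels, with the new forbidden lines
-/

namespace Pool.Agent.Y807.SX

open Finset Pool.Agent.H470D4 Pool.Agent.Y258 Pool.Agent.Y833.SD
open Pool.Agent.H935R2.PS (La uu nn dl mx Suit)

section el
variable {q : ℕ} [Fact q.Prime]

/-- the dyadic weight of a vector -/
noncomputable def psi {ι : Type} [Fintype ι] (D K0 : ℕ) (h : ι → ZMod q) : ℝ :=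
  (2:ℝ) ^ (D * La q) / 2 ^ (K0 + sz h)

lemma psi_nonneg {ι : Type} [Fintype ι] (D K0 : ℕ) (h : ι → ZMod q) : 0 ≤ psi D K0 h := by
  unfold psi; positivity

open Classical in
lemma XW_eq {ι : Type} [Fintype ι] (D K0 : ℕ) (h : ι → ZMod q) :
    XW D K0 h = ∑ s ∈ (univ : Finset (ZMod q)).filter (fun s => s ≠ 0),
      psi D K0 (fun o => s * h o) := rfl

lemma XW_nonneg {ι : Type} [Fintype ι] (D K0 : ℕ) (h : ι → ZMod q) : 0 ≤ XW D K0 h := by
  classical
  rw [XW_eq]
  exact sum_nonneg fun _ _ => psi_nonneg _ _ _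

lemma one_le_XW {ι : Type} [Fintype ι] {lam : ℝ} (hlam : 1 ≤ lam) {D K0 : ℕ} {h : ι → ZMod q}
    (hB : BX lam D K0 h) : 1 ≤ XW D K0 h := by
  classical
  rcases hB with ⟨s, hs, hb⟩ | hb
  · rw [XW_eq]
    have h1 : (1:ℝ) ≤ psi D K0 (fun o => s * h o) := by
      unfold psi
      rw [le_div_iff₀ (by positivity), one_mul]
      refine pow_le_pow_right₀ (by norm_num) ?_
      unfold Pool.Agent.Y258.Bd at hb
      omega
    refine h1.trans ?_
    exact single_le_sum (f := fun s => psi D K0 (fun o => s * h o))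
      (fun _ _ => psi_nonneg _ _ _) (by rw [mem_filter]; exact ⟨mem_univ _, hs⟩)
  · exact hlam.trans hb.le

lemma mx_lt (x : ZMod q) : mx x ≤ 2 ^ (dl x + 1) := by
  unfold Pool.Agent.H935R2.PS.mx dl
  refine max_le ?_ ?_
  · exact one_le_pow₀ (by norm_num)
  · have : nn x < 2 ^ (Nat.log 2 (nn x) + 1) := Nat.lt_pow_succ_log_self (by norm_num) _
    exact_mod_cast this.le

lemma wm_ge {ι : Type} [Fintype ι] (h : ι → ZMod q) :
    1 / (2:ℝ) ^ (sz h) ≤ 2 ^ Fintype.card ι * wm h := by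
  classical
  unfold wm sz
  have h1 : (2:ℝ) ^ Fintype.card ι = ∏ _a : ι, (2:ℝ) := by
    rw [prod_const, card_univ]
  rw [h1, ← prod_mul_distrib, ← prod_pow_eq_pow_sum, one_div, ← prod_inv_distrib]
  refine prod_le_prod (fun a _ => by positivity) fun a _ => ?_
  have h2 := mx_lt (h a)
  have h3 : (0:ℝ) < mx (h a) := lt_of_lt_of_le one_pos (one_le_mx' _)
  rw [mul_one_div, inv_eq_one_div, div_le_div_iff₀ (by positivity) h3]
  rw [pow_succ] at h2
  linarith

lemma psi_le {n : ℕ} (D K0 : ℕ) (H : Option (Fin (n+2)) → ZMod q) :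
    psi D K0 H ≤ (q:ℝ) ^ D * (2 ^ (n+3) * wm H) / 2 ^ K0 := by
  have h1 := wm_ge H
  have hc : Fintype.card (Option (Fin (n+2))) = n + 3 := by simp
  rw [hc] at h1
  have h2 : (2:ℝ) ^ (D * La q) ≤ (q:ℝ) ^ D := by
    rw [mul_comm, pow_mul]
    exact pow_le_pow_left₀ (by positivity) (by exact_mod_cast two_pow_La_le) _
  unfold psi
  rw [pow_add, div_mul_eq_div_div, div_right_comm]
  refine div_le_div_of_nonneg_right ?_ (by positivity)
  rw [div_eq_mul_one_div]
  exact mul_le_mul h2 h1 (by positivity) (by positivity)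

open Classical in
/-- sum of the dyadic weights of all residues -/
lemma sum_dl_le (hLa : 1 ≤ La q) :
    ∑ x : ZMod q, 1 / (2:ℝ) ^ (dl x) ≤ 5 * La q := by
  have hmap : ∀ x ∈ (univ : Finset (ZMod q)), dl x ∈ range (La q + 1) := fun x _ => by
    rw [mem_range]; exact Nat.lt_succ_of_le (dl_le_La' x)
  rw [← sum_fiberwise_of_maps_to hmap]
  have hnn : ∀ j : ℕ, 1 ≤ j → ((univ : Finset (ZMod q)).filter (fun x => dl x = j)).card ≤
      2 * 2 ^ j := by
    intro j hj
    have h1 : ((univ : Finset (ZMod q)).filter (fun x => dl x = j)).card ≤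
        ((Finset.Ico (2 ^ j : ℤ) (2 ^ (j+1))) ∪ (Finset.Ioc (-(2 ^ (j+1)) : ℤ) (-(2 ^ j)))).card := by
      refine Finset.card_le_card_of_injOn (fun x => x.valMinAbs) ?_ ?_
      · intro x hx
        have hx' : dl x = j := (mem_filter.1 hx).2
        unfold dl at hx'
        have hne : nn x ≠ 0 := by
          intro h0
          rw [h0, Nat.log_zero_right] at hx'
          omega
        have h2 : nn x < 2 ^ (j+1) := by
          rw [← hx']
          exact Nat.lt_pow_succ_log_self (by norm_num) _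
        have h3 : 2 ^ j ≤ nn x := by
          rw [← hx']
          exact Nat.pow_log_le_self 2 hne
        unfold nn at h2 h3
        have h4 : (x.valMinAbs.natAbs : ℤ) < 2 ^ (j+1) := by exact_mod_cast h2
        have h5 : (2 ^ j : ℤ) ≤ (x.valMinAbs.natAbs : ℤ) := by exact_mod_cast h3
        simp only [coe_union, coe_Ico, coe_Ioc, Set.mem_union, Set.mem_Ico, Set.mem_Ioc]
        rcases le_total 0 x.valMinAbs with h | h
        · left
          rw [Int.natAbs_of_nonneg h] at h4 h5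
          exact ⟨h5, h4⟩
        · right
          rw [Int.ofNat_natAbs_of_nonpos h] at h4 h5
          constructor <;> linarith
      · intro x _ y _ hxy
        exact ZMod.injective_valMinAbs hxy
    refine h1.trans ((card_union_le _ _).trans ?_)
    rw [Int.card_Ico, Int.card_Ioc]
    have h6 : ((2:ℤ) ^ (j+1) - 2 ^ j).toNat = 2 ^ j := by
      have : (2:ℤ) ^ (j+1) - 2 ^ j = ((2 ^ j : ℕ) : ℤ) := by push_cast; ring
      rw [this, Int.toNat_natCast]
    have h7 : (-(2:ℤ) ^ j - -(2:ℤ) ^ (j+1)).toNat = 2 ^ j := by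
      have : (-(2:ℤ) ^ j - -(2:ℤ) ^ (j+1)) = ((2 ^ j : ℕ) : ℤ) := by push_cast; ring
      rw [this, Int.toNat_natCast]
    rw [h6, h7]
    omega
  have h0 : ((univ : Finset (ZMod q)).filter (fun x => dl x = 0)).card ≤ 3 := by
    have h1 : ((univ : Finset (ZMod q)).filter (fun x => dl x = 0)).card ≤
        (Finset.Icc (-1 : ℤ) 1).card := by
      refine Finset.card_le_card_of_injOn (fun x => x.valMinAbs) ?_ ?_
      · intro x hx
        have hx' : dl x = 0 := (mem_filter.1 hx).2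
        unfold dl at hx'
        have h2 : nn x < 2 ^ (0+1) := by
          rw [← hx']
          exact Nat.lt_pow_succ_log_self (by norm_num) _
        unfold nn at h2
        simp only [coe_Icc, Set.mem_Icc]
        omega
      · intro x _ y _ hxy
        exact ZMod.injective_valMinAbs hxy
    refine h1.trans ?_
    simp
  have hterm : ∀ j ∈ range (La q + 1), ∑ x ∈ (univ : Finset (ZMod q)).filter (fun x => dl x = j),
      1 / (2:ℝ) ^ (dl x) ≤ (if j = 0 then 3 else 2) := by
    intro j _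
    have e1 : ∑ x ∈ (univ : Finset (ZMod q)).filter (fun x => dl x = j), 1 / (2:ℝ) ^ (dl x) =
        (((univ : Finset (ZMod q)).filter (fun x => dl x = j)).card : ℝ) * (1 / 2 ^ j) := by
      rw [← nsmul_eq_mul, ← sum_const]
      refine sum_congr rfl fun x hx => ?_
      rw [(mem_filter.1 hx).2]
    rw [e1]
    split_ifs with hj
    · subst hj
      rw [pow_zero, div_one, mul_one]
      exact_mod_cast h0
    · have h1 := hnn j (by omega)
      have h2 : (((univ : Finset (ZMod q)).filter (fun x => dl x = j)).card : ℝ) ≤ 2 * 2 ^ j := by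
        exact_mod_cast h1
      rw [mul_one_div, div_le_iff₀ (by positivity)]
      exact h2
  refine (sum_le_sum hterm).trans ?_
  rw [sum_range_succ']
  simp only [Nat.add_eq_zero_iff, one_ne_zero, and_false, if_false, if_true, sum_const, card_range,
    nsmul_eq_mul]
  have : (1:ℝ) ≤ La q := by exact_mod_cast hLa
  linarith

end el

section pa
variable {q M B n : ℕ} [Fact q.Prime]

lemma OO_smul (l l' : Fin (n+2) → ℕ) (H H' : Option (Fin (n+2)) → ZMod q) (s : ZMod q) :
    OO l l' H (fun o => s * H' o) = fun a => s * OO l l' H H' a := by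
  funext a
  unfold OO
  split_ifs <;> ring

lemma OO_smul_zero {l l' : Fin (n+2) → ℕ} {H H' : Option (Fin (n+2)) → ZMod q} (s : ZMod q)
    (h : OO l l' H H' = 0) : OO l l' H (fun o => s * H' o) = 0 := by
  rw [OO_smul, h]
  funext a
  simp

lemma OO_smul_ne {l l' : Fin (n+2) → ℕ} {H H' : Option (Fin (n+2)) → ZMod q} {s : ZMod q}
    (hs : s ≠ 0) (h : OO l l' H H' ≠ 0) : OO l l' H (fun o => s * H' o) ≠ 0 := by
  rw [OO_smul]
  intro h0
  apply h
  funext a
  have := congrFun h0 a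
  simp only [Pi.zero_apply] at this ⊢
  exact (mul_eq_zero.1 this).resolve_left hs

lemma rat_smul (H H' : Option (Fin (n+2)) → ZMod q) (s : ZMod q) :
    rat H (fun o => s * H' o) = s * rat H H' := by
  unfold rat
  ring

open Classical in
/-- a sum over all vectors dominates the sum over the multiples of one vector -/
lemma mult_le {H' : Option (Fin (n+2)) → ZMod q} (h0 : H' none ≠ 0)
    (f : (Option (Fin (n+2)) → ZMod q) → ℝ) (hf : ∀ H, 0 ≤ f H)
    (S : Finset (Option (Fin (n+2)) → ZMod q))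
    (hS : ∀ s : ZMod q, s ≠ 0 → (fun o => s * H' o) ∈ S) :
    ∑ s ∈ (univ : Finset (ZMod q)).filter (fun s => s ≠ 0), f (fun o => s * H' o) ≤
      ∑ H ∈ S, f H := by
  have hinj : Set.InjOn (fun s : ZMod q => (fun o => s * H' o : Option (Fin (n+2)) → ZMod q))
      ((univ : Finset (ZMod q)).filter (fun s => s ≠ 0)) := by
    intro s _ t _ hst
    have := congrFun hst none
    exact mul_right_cancel₀ h0 this
  rw [← sum_image (f := f) hinj]
  refine sum_le_sum_of_subset_of_nonneg ?_ fun H _ _ => hf H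
  intro H hH
  rw [mem_image] at hH
  obtain ⟨s, hs, rfl⟩ := hH
  exact hS s (mem_filter.1 hs).2

/-- the event of a proportional forbidden relation -/
def EvX (c : Flg q M B n) (K0 : ℕ) (ω : Pth q B) (r : ℕ) (b : Fin M) (l l' : Fin (n+2) → ℕ)
    (H : Option (Fin (n+2)) → ZMod q) (z : Blk q B) : Prop :=
  Rel c (Wz M ω r b z) l r H ∧ Gx c K0 (Wz M ω r b z) l r ∧
    ∃ H' : Option (Fin (n+2)) → ZMod q, H' none ≠ 0 ∧ BX (2 ^ (n + 6)) (dm M B l' r) K0 H' ∧
      OO l l' H H' = 0 ∧ Rel c (Wz M ω r b z) l' r H'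

open Classical in
/-- number of blocks with a proportional forbidden relation -/
noncomputable def NX (c : Flg q M B n) (K0 : ℕ) (ω : Pth q B) (r : ℕ) (b : Fin M)
    (l l' : Fin (n+2) → ℕ) (H : Option (Fin (n+2)) → ZMod q) : ℝ :=
  (((univ : Finset (Blk q B)).filter (fun z => EvX c K0 ω r b l l' H z)).card : ℝ)

lemma NX_eq (c : Flg q M B n) (K0 : ℕ) (ω : Pth q B) (r : ℕ) (b : Fin M) (l l' : Fin (n+2) → ℕ)
    (H : Option (Fin (n+2)) → ZMod q) : NX c K0 ω r b l l' H =
    ∑ z : Blk q B, ii (EvX c K0 ω r b l l' H z) := by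
  classical
  unfold NX ii
  rw [card_filter]
  push_cast
  refine sum_congr rfl fun z _ => ?_
  split_ifs <;> rfl

/-- one relation -/
lemma NX_le {c : Flg q M B n} (hc : IsFlags c) {K0 K7 r : ℕ} {b : Fin M} {ω : Pth q B}
    {l l' : Fin (n+2) → ℕ} (hE : Exc c ω r) (hK : 2 * n + 4 ≤ K7)
    (hl : l ∈ IL M B n K7 r b) (H : Option (Fin (n+2)) → ZMod q) (hH : H none ≠ 0) :
    (q:ℝ) ^ dm M B l r * NX c K0 ω r b l l' H ≤ (q:ℝ) ^ B := by
  classical
  have h1 := card_Rel hc hE (by omega) hl H hH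
  have h2 : NX c K0 ω r b l l' H ≤ (((univ : Finset (Blk q B)).filter (fun z =>
      Rel c (Function.update ω (r * M + (M - 1 - b)) z) l r H)).card : ℝ) := by
    unfold NX
    refine Nat.cast_le.2 (card_le_card ?_)
    intro z hz
    rw [mem_filter] at hz ⊢
    exact ⟨hz.1, hz.2.1⟩
  have h3 : (((univ : Finset (Blk q B)).filter (fun z =>
      Rel c (Function.update ω (r * M + (M - 1 - b)) z) l r H)).card : ℝ) *
      (q:ℝ) ^ dm M B l r = (q:ℝ) ^ B := by exact_mod_cast h1
  rw [← h3, mul_comm]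
  exact mul_le_mul_of_nonneg_right h2 (by positivity)

/-- vanishing of the coordinates -/
lemma EvX_zero {c : Flg q M B n} {K0 r : ℕ} {b : Fin M} {ω : Pth q B}
    {l l' : Fin (n+2) → ℕ} {H : Option (Fin (n+2)) → ZMod q} {z : Blk q B}
    (h : EvX c K0 ω r b l l' H z) {a : Fin (n+2)} (ha : l' a < l a) : H (some a) = 0 := by
  obtain ⟨_, _, H', hH', _, h0, _⟩ := h
  exact OO_lt hH' h0 ha

/-- the line is not forbidden -/
lemma EvX_bad {c : Flg q M B n} {K0 r : ℕ} {b : Fin M} {ω : Pth q B}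
    {l l' : Fin (n+2) → ℕ} {H : Option (Fin (n+2)) → ZMod q} (hH : H none ≠ 0) {z : Blk q B}
    (h : EvX c K0 ω r b l l' H z) : ¬ BX (2 ^ (n + 6)) (dm M B l r) K0 H := by
  obtain ⟨h1, h2, _⟩ := h
  exact h2 H hH h1

lemma NX_zero_of {c : Flg q M B n} {K0 r : ℕ} {b : Fin M} {ω : Pth q B}
    {l l' : Fin (n+2) → ℕ} {H : Option (Fin (n+2)) → ZMod q}
    (h : ∀ z, ¬ EvX c K0 ω r b l l' H z) : NX c K0 ω r b l l' H = 0 := by
  classical
  unfold NX
  rw [Nat.cast_eq_zero, card_eq_zero, filter_eq_empty_iff]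
  intro z _
  exact h z

/-- sizes of proportional relations, no coordinate is larger -/
lemma sz_of_le {l l' : Fin (n+2) → ℕ} {r : ℕ} {H H' : Option (Fin (n+2)) → ZMod q}
    (hg : H none ≠ 0) (h0 : OO l l' H H' = 0) (hl : ∑ a, l' a + r < M * B)
    (hle : ∀ a, l a ≤ l' a) :
    sz (fun o => rat H H' * H o) + dm M B l' r * La q ≤ sz H' + dm M B l r * La q := by
  rw [sz_option, sz_option]
  beta_reduce
  rw [rat_none hg]
  have h1 : ∑ a, dl (rat H H' * H (some a)) ≤ ∑ a, (dl (H' (some a)) + (l' a - l a) * La q) :=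
    sum_le_sum fun a _ => dl_prop hg h0 (hle a)
  rw [sum_add_distrib, ← sum_mul] at h1
  have h2 : ∑ a, (l' a - l a) + ∑ a, l a = ∑ a, l' a := by
    rw [← sum_add_distrib]
    exact sum_congr rfl fun a _ => by have := hle a; omega
  have h3 : dm M B l r = dm M B l' r + ∑ a, (l' a - l a) := by
    unfold dm; omega
  rw [h3, add_mul]
  omega

open Classical in
/-- no coordinate is larger: the total weight does not decrease -/
lemma XW_of_le {l l' : Fin (n+2) → ℕ} {r K0 : ℕ} {H H' : Option (Fin (n+2)) → ZMod q}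
    (hg : H none ≠ 0) (hg' : H' none ≠ 0) (h0 : OO l l' H H' = 0) (hl : ∑ a, l' a + r < M * B)
    (hle : ∀ a, l a ≤ l' a) : XW (dm M B l' r) K0 H' ≤ XW (dm M B l r) K0 H := by
  rw [XW_eq, XW_eq]
  have hr := rat_ne hg hg'
  refine le_trans (sum_le_sum (g := fun s => psi (dm M B l r) K0 (fun o => (s * rat H H') * H o))
    fun s _ => ?_) (le_of_eq ?_)
  · have h1 := sz_of_le (M := M) (B := B) (r := r) hg (OO_smul_zero s h0) hl hle
    rw [rat_smul] at h1
    unfold psi
    rw [div_le_div_iff₀ (by positivity) (by positivity), ← pow_add, ← pow_add]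
    exact pow_le_pow_right₀ (by norm_num) (by omega)
  · refine sum_nbij' (fun s => s * rat H H') (fun s => s * (rat H H')⁻¹) ?_ ?_ ?_ ?_ ?_
    · intro s hs
      rw [mem_filter] at hs ⊢
      exact ⟨mem_univ _, mul_ne_zero hs.2 hr⟩
    · intro s hs
      rw [mem_filter] at hs ⊢
      exact ⟨mem_univ _, mul_ne_zero hs.2 (inv_ne_zero hr)⟩
    · intro s _
      beta_reduce
      rw [mul_assoc, mul_inv_cancel₀ hr, mul_one]
    · intro s _
      beta_reduce
      rw [mul_assoc, inv_mul_cancel₀ hr, mul_one]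
    · intro s _
      rfl

/-- no coordinate is larger -/
lemma NX_none {c : Flg q M B n} {K0 K7 r : ℕ} {b : Fin M} {ω : Pth q B}
    {l l' : Fin (n+2) → ℕ} (hl' : l' ∈ IL M B n K7 r b) (hle : ∀ a, l a ≤ l' a)
    (H : Option (Fin (n+2)) → ZMod q) (hH : H none ≠ 0) : NX c K0 ω r b l l' H = 0 := by
  apply NX_zero_of
  intro z h
  have hb := EvX_bad hH h
  obtain ⟨h1, h2, H', hH', hB, h0, h3⟩ := h
  have hl2 := (mem_IL.1 hl').2.2.2.1
  apply hb
  rcases hB with ⟨s, hs, hB⟩ | hB
  · left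
    refine ⟨rat H (fun o => s * H' o), rat_ne hH (mul_ne_zero hs hH'), ?_⟩
    exact bad_of_le hH (OO_smul_zero s h0) hl2 hle hB
  · right
    exact lt_of_lt_of_le hB (XW_of_le hH hH' h0 hl2 hle)

/-- sizes of proportional relations, one coordinate is larger -/
lemma sz_of_one' {l l' : Fin (n+2) → ℕ} {r : ℕ} {H H' : Option (Fin (n+2)) → ZMod q}
    (hg : H none ≠ 0) (hg' : H' none ≠ 0)
    (h0 : OO l l' H H' = 0) (hl : ∑ a, l' a + r < M * B) (hl2 : ∑ a, l a + r < M * B)
    {a0 : Fin (n+2)} (ha0 : l' a0 < l a0) (hle : ∀ a, a ≠ a0 → l a ≤ l' a) :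
    sz (fun o => rat H H' * H o) + dl (H' (some a0)) + dm M B l' r * La q ≤
      sz H' + (dm M B l r + (l a0 - l' a0)) * La q := by
  rw [sz_option, sz_option]
  beta_reduce
  rw [rat_none hg]
  rw [← Finset.add_sum_erase univ _ (mem_univ a0),
    ← Finset.add_sum_erase univ (fun a => dl (H' (some a))) (mem_univ a0)]
  have e0 : H (some a0) = 0 := OO_lt hg' h0 ha0
  rw [e0, mul_zero, dl_zero', zero_add]
  have h1 : ∑ a ∈ univ.erase a0, dl (rat H H' * H (some a)) ≤
      ∑ a ∈ univ.erase a0, (dl (H' (some a)) + (l' a - l a) * La q) :=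
    sum_le_sum fun a ha => dl_prop hg h0 (hle a (ne_of_mem_erase ha))
  rw [sum_add_distrib, ← sum_mul] at h1
  have h2 : ∑ a ∈ univ.erase a0, (l' a - l a) + ∑ a ∈ univ.erase a0, l a =
      ∑ a ∈ univ.erase a0, l' a := by
    rw [← sum_add_distrib]
    exact sum_congr rfl fun a ha => by have := hle a (ne_of_mem_erase ha); omega
  have h3 := Finset.add_sum_erase univ l (mem_univ a0)
  have h4 := Finset.add_sum_erase univ l' (mem_univ a0)
  have h5 : dm M B l r + (l a0 - l' a0) =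
      dm M B l' r + ∑ a ∈ univ.erase a0, (l' a - l a) := by
    unfold dm; omega
  rw [h5, add_mul]
  omega

open Classical in
/-- the total weight of the proportional relations -/
lemma sum_prop (hLa : 1 ≤ La q) {l l' : Fin (n+2) → ℕ} {r K0 : ℕ}
    {H : Option (Fin (n+2)) → ZMod q}
    (hg : H none ≠ 0) (hl : ∑ a, l' a + r < M * B) (hl2 : ∑ a, l a + r < M * B)
    {a0 : Fin (n+2)} (ha0 : l' a0 < l a0) (hle : ∀ a, a ≠ a0 → l a ≤ l' a) :
    ∑ H' ∈ (univ : Finset (Option (Fin (n+2)) → ZMod q)).filter (fun H' => H' none ≠ 0 ∧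
      OO l l' H H' = 0), psi (dm M B l' r) K0 H' ≤
    (2:ℝ) ^ ((l a0 - l' a0) * La q) * (5 * La q * XW (dm M B l r) K0 H) := by
  set S := (univ : Finset (Option (Fin (n+2)) → ZMod q)).filter (fun H' => H' none ≠ 0 ∧
      OO l l' H H' = 0) with hS
  set g : ZMod q × ZMod q → ℝ := fun p => (2:ℝ) ^ ((l a0 - l' a0) * La q) *
    (psi (dm M B l r) K0 (fun o => p.1 * H o) * (1 / 2 ^ (dl p.2))) with hg1
  have hle1 : ∀ H' ∈ S, psi (dm M B l' r) K0 H' ≤ g (rat H H', H' (some a0)) := by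
    intro H' hH'
    rw [hS, mem_filter] at hH'
    have h1 := sz_of_one' (M := M) (B := B) (r := r) hg hH'.2.1 hH'.2.2 hl hl2 ha0 hle
    rw [hg1]
    unfold psi
    dsimp only
    rw [div_mul_div_comm, mul_one, mul_div_assoc', ← pow_add, ← pow_add,
      div_le_div_iff₀ (by positivity) (by positivity), ← pow_add, ← pow_add]
    rw [add_mul] at h1
    exact pow_le_pow_right₀ (by norm_num) (by omega)
  have hinj : Set.InjOn (fun H' : Option (Fin (n+2)) → ZMod q => (rat H H', H' (some a0))) S := by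
    intro H' hH' H'' hH'' heq
    rw [hS, coe_filter, Set.mem_ofPred_eq] at hH' hH''
    obtain ⟨_, hH1, hH3⟩ := hH'
    obtain ⟨_, hG1, hG3⟩ := hH''
    simp only [Prod.mk.injEq] at heq
    obtain ⟨e1, e2⟩ := heq
    funext o
    rcases o with _ | a
    · rw [← rat_none (H' := H') hg, ← rat_none (H' := H'') hg, e1]
    · by_cases haa : a = a0
      · rw [haa]; exact e2
      · rcases eq_or_lt_of_le (hle a haa) with h5 | h5
        · rw [OO_eq hg hH3 h5, OO_eq hg hG3 h5, e1]
        · rw [OO_gt hg hH3 h5, OO_gt hg hG3 h5]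
  have hgn : ∀ p, 0 ≤ g p := by
    intro p
    rw [hg1]
    exact mul_nonneg (by positivity) (mul_nonneg (psi_nonneg _ _ _) (by positivity))
  calc ∑ H' ∈ S, psi (dm M B l' r) K0 H' ≤ ∑ H' ∈ S, g (rat H H', H' (some a0)) :=
        sum_le_sum hle1
    _ = ∑ p ∈ S.image (fun H' => (rat H H', H' (some a0))), g p := by rw [sum_image hinj]
    _ ≤ ∑ p ∈ ((univ : Finset (ZMod q)).filter (fun s => s ≠ 0)) ×ˢ (univ : Finset (ZMod q)),
          g p := by
        refine sum_le_sum_of_subset_of_nonneg ?_ fun p _ _ => hgn p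
        intro p hp
        rw [mem_image] at hp
        obtain ⟨H', hH', rfl⟩ := hp
        rw [hS, mem_filter] at hH'
        rw [mem_product, mem_filter]
        exact ⟨⟨mem_univ _, rat_ne hg hH'.2.1⟩, mem_univ _⟩
    _ = (2:ℝ) ^ ((l a0 - l' a0) * La q) * (XW (dm M B l r) K0 H *
          ∑ x : ZMod q, 1 / (2:ℝ) ^ (dl x)) := by
        rw [sum_product, hg1, XW_eq, sum_mul_sum, mul_sum]
        refine sum_congr rfl fun s _ => ?_
        rw [mul_sum]
    _ ≤ (2:ℝ) ^ ((l a0 - l' a0) * La q) * (XW (dm M B l r) K0 H * (5 * La q)) := by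
        refine mul_le_mul_of_nonneg_left ?_ (by positivity)
        exact mul_le_mul_of_nonneg_left (sum_dl_le hLa) (XW_nonneg _ _ _)
    _ = _ := by ring

/-- one coordinate is larger -/
lemma NX_one {c : Flg q M B n} (hc : IsFlags c) (hLa : 1 ≤ La q) {K0 K7 r : ℕ} {b : Fin M}
    {ω : Pth q B}
    {l l' : Fin (n+2) → ℕ} (hE : Exc c ω r) (hK : 2 * n + 4 ≤ K7)
    (hl : l ∈ IL M B n K7 r b) (hl' : l' ∈ IL M B n K7 r b) (he : 1 ≤ dm M B (mxv l l') r)
    {a0 : Fin (n+2)} (ha0 : l' a0 < l a0) (hle : ∀ a, a ≠ a0 → l a ≤ l' a)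
    (H : Option (Fin (n+2)) → ZMod q) (hH : H none ≠ 0) :
    (q:ℝ) ^ dm M B l r * NX c K0 ω r b l l' H ≤ (q:ℝ) ^ B *
      (min 1 (((5:ℕ):ℝ) * La q * XW (dm M B l r) K0 H)) := by
  classical
  have hq0 : (0:ℝ) < q := by exact_mod_cast (Fact.out : q.Prime).pos
  have hl1 := mem_IL.1 hl
  have hl2 := mem_IL.1 hl'
  set δ := l a0 - l' a0 with hδ
  set D := dm M B l r with hD
  set X := ((5:ℕ):ℝ) * La q * XW D K0 H with hX
  have h1 : (q:ℝ) ^ D * NX c K0 ω r b l l' H ≤ (q:ℝ) ^ B := NX_le hc hE hK hl H hH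
  have h2 : (q:ℝ) ^ D * NX c K0 ω r b l l' H ≤ (q:ℝ) ^ B * X := by
    set 𝓗 := (univ : Finset (Option (Fin (n+2)) → ZMod q)).filter (fun H' => H' none ≠ 0 ∧
      OO l l' H H' = 0) with h𝓗
    have e1 : NX c K0 ω r b l l' H ≤ ∑ H' ∈ 𝓗, psi (dm M B l' r) K0 H' *
        N1 c ω r b l l' H H' := by
      rw [NX_eq]
      simp_rw [N1_eq, mul_sum]
      rw [sum_comm]
      refine sum_le_sum fun z _ => ?_
      by_cases hz : EvX c K0 ω r b l l' H z
      · obtain ⟨g1, g2, H', hH', hB, h0, g3⟩ := hz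
        have hx := one_le_XW (one_le_pow₀ (by norm_num)) hB
        refine (ii_le_one _).trans (hx.trans ?_)
        rw [XW_eq]
        refine le_trans (le_of_eq (sum_congr rfl fun s _ => ?_)) (mult_le hH'
          (fun H' => psi (dm M B l' r) K0 H' * ii (Rel c (Wz M ω r b z) l r H ∧
            Rel c (Wz M ω r b z) l' r H')) (fun _ => mul_nonneg (psi_nonneg _ _ _) (ii_nonneg _))
          𝓗 ?_)
        · beta_reduce
          rw [ii_true (P := Rel c (Wz M ω r b z) l r H ∧
            Rel c (Wz M ω r b z) l' r (fun o => s * H' o)) ⟨g1, Rel_smul g3 s⟩, mul_one]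
        · intro s hs
          rw [h𝓗, mem_filter]
          exact ⟨mem_univ _, mul_ne_zero hs hH', OO_smul_zero s h0⟩
      · rw [ii_false hz]
        exact sum_nonneg fun _ _ => mul_nonneg (psi_nonneg _ _ _) (ii_nonneg _)
    have e2 : ∀ H' ∈ 𝓗, (q:ℝ) ^ D * N1 c ω r b l l' H H' ≤ (q:ℝ) ^ B * (1 / (q:ℝ) ^ δ) := by
      intro H' hH'
      rw [h𝓗, mem_filter] at hH'
      refine (N1_le hc hE hK hl hl' he H H' hH hH'.2.1).trans ?_
      refine mul_le_mul_of_nonneg_left ?_ (by positivity)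
      refine (mul_le_of_le_one_left (by positivity) (ii_le_one _)).trans (le_of_eq ?_)
      have e3 : dm M B l' r = dm M B (mxv l l') r + δ := by
        have s1 := Finset.add_sum_erase univ (mxv l l') (mem_univ a0)
        have s2 := Finset.add_sum_erase univ l' (mem_univ a0)
        have s3 : ∑ a ∈ univ.erase a0, mxv l l' a = ∑ a ∈ univ.erase a0, l' a :=
          sum_congr rfl fun a ha => max_eq_right (hle a (ne_of_mem_erase ha))
        have s4 : mxv l l' a0 = l a0 := max_eq_left ha0.le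
        unfold dm at he ⊢
        omega
      rw [e3, pow_add, div_mul_eq_div_div, div_self (by positivity)]
    have e4 : ∑ H' ∈ 𝓗, psi (dm M B l' r) K0 H' ≤ (2:ℝ) ^ (δ * La q) * X :=
      sum_prop hLa hH hl2.2.2.2.1 hl1.2.2.2.1 ha0 hle
    have e5 : (2:ℝ) ^ (δ * La q) ≤ (q:ℝ) ^ δ := by
      rw [mul_comm, pow_mul]
      exact pow_le_pow_left₀ (by positivity) (by exact_mod_cast two_pow_La_le) _
    have hX0 : 0 ≤ X := by
      rw [hX]
      exact mul_nonneg (by positivity) (XW_nonneg _ _ _)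
    calc (q:ℝ) ^ D * NX c K0 ω r b l l' H
        ≤ (q:ℝ) ^ D * ∑ H' ∈ 𝓗, psi (dm M B l' r) K0 H' * N1 c ω r b l l' H H' :=
          mul_le_mul_of_nonneg_left e1 (by positivity)
      _ = ∑ H' ∈ 𝓗, psi (dm M B l' r) K0 H' * ((q:ℝ) ^ D * N1 c ω r b l l' H H') := by
          rw [mul_sum]
          exact sum_congr rfl fun _ _ => by ring
      _ ≤ ∑ H' ∈ 𝓗, psi (dm M B l' r) K0 H' * ((q:ℝ) ^ B * (1 / (q:ℝ) ^ δ)) :=
          sum_le_sum fun H' hH' => mul_le_mul_of_nonneg_left (e2 H' hH') (psi_nonneg _ _ _)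
      _ = (q:ℝ) ^ B * ((∑ H' ∈ 𝓗, psi (dm M B l' r) K0 H') / (q:ℝ) ^ δ) := by
          rw [← sum_mul]; ring
      _ ≤ (q:ℝ) ^ B * X := by
          refine mul_le_mul_of_nonneg_left ?_ (by positivity)
          rw [div_le_iff₀ (by positivity)]
          refine e4.trans ?_
          rw [mul_comm]
          exact mul_le_mul_of_nonneg_left e5 hX0
  rcases le_total 1 X with h | h
  · rw [min_eq_left h]
    linarith
  · rw [min_eq_right h]
    exact h2

open Classical in
/-- the pointwise majorant -/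
lemma RR_leX (c : Flg q M B n) (K0 : ℕ) (ω : Pth q B) (r : ℕ) (b : Fin M)
    (l l' : Fin (n+2) → ℕ) (z : Blk q B) :
    RR c (Wz M ω r b z) l r * (ii (Gx c K0 (Wz M ω r b z) l r) *
       ii (¬ Gx c K0 (Wz M ω r b z) l' r)) ≤
    ∑ H ∈ (univ : Finset (Option (Fin (n+2)) → ZMod q)).filter (fun H => H none ≠ 0),
      (q:ℝ) ^ dm M B l r * wm H *
        (∑ H' ∈ (univ : Finset (Option (Fin (n+2)) → ZMod q)).filter (fun H' => H' none ≠ 0),
          psi (dm M B l' r) K0 H' * (ii (OO l l' H H' ≠ 0) *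
            ii (Rel c (Wz M ω r b z) l r H ∧ Rel c (Wz M ω r b z) l' r H')) +
        ii (EvX c K0 ω r b l l' H z)) := by
  have hq0 : (0:ℝ) < q := by exact_mod_cast (Fact.out : q.Prime).pos
  unfold RR
  have e1 : (univ : Finset (Option (Fin (n+2)) → ZMod q)).filter
      (fun H => H none ≠ 0 ∧ Rel c (Wz M ω r b z) l r H) =
      ((univ : Finset (Option (Fin (n+2)) → ZMod q)).filter (fun H => H none ≠ 0)).filter
        (fun H => Rel c (Wz M ω r b z) l r H) := by
    rw [filter_filter]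
  rw [e1, sum_filter, sum_mul]
  refine sum_le_sum fun H hH => ?_
  have hS0 : 0 ≤ ∑ H' ∈ (univ : Finset (Option (Fin (n+2)) → ZMod q)).filter
          (fun H' => H' none ≠ 0), psi (dm M B l' r) K0 H' *
          (ii (OO l l' H H' ≠ 0) *
            ii (Rel c (Wz M ω r b z) l r H ∧ Rel c (Wz M ω r b z) l' r H')) :=
    sum_nonneg fun _ _ => mul_nonneg (psi_nonneg _ _ _) (mul_nonneg (ii_nonneg _) (ii_nonneg _))
  have hw0 : 0 ≤ (q:ℝ) ^ dm M B l r * wm H := mul_nonneg (by positivity) (wm_nonneg H)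
  have hR0 := mul_nonneg hw0 (add_nonneg hS0 (ii_nonneg (EvX c K0 ω r b l l' H z)))
  split_ifs with hR
  · by_cases hG : Gx c K0 (Wz M ω r b z) l r
    · by_cases hG' : Gx c K0 (Wz M ω r b z) l' r
      · rw [ii_false (not_not.2 hG'), mul_zero, mul_zero]
        exact hR0
      · refine mul_le_mul_of_nonneg_left ?_ hw0
        rw [ii_true hG, ii_true hG', one_mul]
        unfold Gx at hG'
        push Not at hG'
        obtain ⟨H', g1, g2, g3⟩ := hG'
        by_cases h0 : OO l l' H H' = 0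
        · have h1 : EvX c K0 ω r b l l' H z := ⟨hR, hG, H', g1, g3, h0, g2⟩
          rw [ii_true h1]
          linarith
        · have hx := one_le_XW (one_le_pow₀ (by norm_num)) g3
          have h1 : XW (dm M B l' r) K0 H' ≤
              ∑ H' ∈ (univ : Finset (Option (Fin (n+2)) → ZMod q)).filter
                (fun H' => H' none ≠ 0), psi (dm M B l' r) K0 H' *
                (ii (OO l l' H H' ≠ 0) *
                  ii (Rel c (Wz M ω r b z) l r H ∧ Rel c (Wz M ω r b z) l' r H')) := by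
            rw [XW_eq]
            refine le_trans (le_of_eq (sum_congr rfl fun s hs => ?_)) (mult_le g1
              (fun H' => psi (dm M B l' r) K0 H' * (ii (OO l l' H H' ≠ 0) *
                ii (Rel c (Wz M ω r b z) l r H ∧ Rel c (Wz M ω r b z) l' r H')))
              (fun _ => mul_nonneg (psi_nonneg _ _ _) (mul_nonneg (ii_nonneg _) (ii_nonneg _)))
              _ ?_)
            · beta_reduce
              rw [ii_true (P := Rel c (Wz M ω r b z) l r H ∧
                Rel c (Wz M ω r b z) l' r (fun o => s * H' o)) ⟨hR, Rel_smul g2 s⟩,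
                ii_true (OO_smul_ne (mem_filter.1 hs).2 h0), mul_one, mul_one]
            · intro s hs
              rw [mem_filter]
              exact ⟨mem_univ _, mul_ne_zero hs g1⟩
          have h2 := ii_nonneg (EvX c K0 ω r b l l' H z)
          linarith
    · rw [ii_false hG, zero_mul, mul_zero]
      exact hR0
  · rw [zero_mul]
    exact hR0

open Classical in
/-- the two parts of the correlation -/
lemma sum_leX {c : Flg q M B n} (hc : IsFlags c) {K0 K7 r : ℕ} {b : Fin M} {ω : Pth q B}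
    {l l' : Fin (n+2) → ℕ} (hE : Exc c ω r) (hK : 2 * n + 4 ≤ K7)
    (hl : l ∈ IL M B n K7 r b) (hl' : l' ∈ IL M B n K7 r b) (he : 1 ≤ dm M B (mxv l l') r) :
    ∑ z : Blk q B, RR c (Wz M ω r b z) l r * (ii (Gx c K0 (Wz M ω r b z) l r) *
       ii (¬ Gx c K0 (Wz M ω r b z) l' r)) ≤
    (q:ℝ) ^ B * (2 ^ (n+3) * QQ c ω r l l' / 2 ^ K0) +
      ∑ H ∈ (univ : Finset (Option (Fin (n+2)) → ZMod q)).filter (fun H => H none ≠ 0),
        wm H * ((q:ℝ) ^ dm M B l r * NX c K0 ω r b l l' H) := by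
  have hq0 : (0:ℝ) < q := by exact_mod_cast (Fact.out : q.Prime).pos
  refine (sum_le_sum fun z _ => RR_leX c K0 ω r b l l' z).trans ?_
  rw [sum_comm]
  have e1 : ∀ H ∈ (univ : Finset (Option (Fin (n+2)) → ZMod q)).filter (fun H => H none ≠ 0),
      ∑ z : Blk q B, (q:ℝ) ^ dm M B l r * wm H *
        (∑ H' ∈ (univ : Finset (Option (Fin (n+2)) → ZMod q)).filter (fun H' => H' none ≠ 0),
          psi (dm M B l' r) K0 H' * (ii (OO l l' H H' ≠ 0) *
            ii (Rel c (Wz M ω r b z) l r H ∧ Rel c (Wz M ω r b z) l' r H')) +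
        ii (EvX c K0 ω r b l l' H z)) ≤
      (q:ℝ) ^ B * (2 ^ (n+3) / 2 ^ K0 *
        ∑ H' ∈ (univ : Finset (Option (Fin (n+2)) → ZMod q)).filter (fun H' => H' none ≠ 0),
          ii (OO l l' H H' ≠ 0 ∧ OR c ω (mxv l l') r (OO l l' H H')) *
            ((q:ℝ) ^ dm M B (mxv l l') r * (wm H * wm H'))) +
        wm H * ((q:ℝ) ^ dm M B l r * NX c K0 ω r b l l' H) := by
    intro H hH
    rw [mem_filter] at hH
    rw [← mul_sum, sum_add_distrib, ← NX_eq, sum_comm, mul_add]
    refine add_le_add ?_ (le_of_eq (by ring))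
    rw [mul_sum, mul_sum, mul_sum]
    refine sum_le_sum fun H' hH' => ?_
    rw [mem_filter] at hH'
    rw [← mul_sum, ← mul_sum, ← N1_eq, ii_and]
    have h1 := N1_le hc hE hK hl hl' he H H' hH.2 hH'.2
    have h2 : 0 ≤ wm H * (psi (dm M B l' r) K0 H' * ii (OO l l' H H' ≠ 0)) :=
      mul_nonneg (wm_nonneg H) (mul_nonneg (psi_nonneg _ _ _) (ii_nonneg _))
    have h3 := mul_le_mul_of_nonneg_left h1 h2
    refine le_trans (le_of_eq (by ring)) (h3.trans ?_)
    have h4 := psi_le (q := q) (dm M B l' r) K0 H'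
    have h5 : 0 ≤ wm H * (ii (OO l l' H H' ≠ 0) * ((q:ℝ) ^ B *
        (ii (OR c ω (mxv l l') r (OO l l' H H')) * ((q:ℝ) ^ dm M B (mxv l l') r /
        (q:ℝ) ^ dm M B l' r)))) := by
      refine mul_nonneg (wm_nonneg H) (mul_nonneg (ii_nonneg _) (mul_nonneg (by positivity)
        (mul_nonneg (ii_nonneg _) (by positivity))))
    have h6 := mul_le_mul_of_nonneg_right h4 h5
    refine le_trans (le_of_eq (by ring)) (h6.trans (le_of_eq ?_))
    have hne : (q:ℝ) ^ dm M B l' r ≠ 0 := by positivity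
    field_simp
  refine (sum_le_sum e1).trans (le_of_eq ?_)
  rw [sum_add_distrib, ← mul_sum, ← mul_sum]
  congr 2
  unfold QQ
  ring

end pa

open Classical in
theorem x12 (hA6 : St_A6a) (hX8 : St_X8) : St_X12 := by
  intro n
  obtain ⟨C6, hC6, h6⟩ := hA6 (n+1)
  obtain ⟨C8, h8⟩ := hX8 n 5
  refine ⟨max 3 (max C8 (max (2 ^ (n+3)) ⌈C6⌉₊)), ?_⟩
  intro q _ hS hCq M B c hc K0 K7 hK7 hK0 hK0' ω r b l l' hl hl' hne he hE
  set C := max 3 (max C8 (max (2 ^ (n+3)) ⌈C6⌉₊)) with hCdef
  have c1 : 3 ≤ C := le_max_left _ _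
  have c2 : C8 ≤ C := (le_max_left _ _).trans (le_max_right _ _)
  have c4 : 2 ^ (n+3) ≤ C :=
    (le_max_left _ _).trans ((le_max_right _ _).trans (le_max_right _ _))
  have c3 : C6 ≤ (C:ℝ) := (Nat.le_ceil _).trans (by
    exact_mod_cast (le_max_right _ _).trans ((le_max_right _ _).trans (le_max_right _ _)))
  have hl1 := mem_IL.1 hl
  have hl2 := mem_IL.1 hl'
  have hD1 : 1 ≤ dm M B l r := by unfold dm; omega
  have hD2 : dm M B l r ≤ n + 2 := by unfold dm; omega
  have hqB : (0:ℝ) ≤ (q:ℝ) ^ B := by positivity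
  have huu : 1 ≤ uu q := by unfold Pool.Agent.H935R2.PS.uu; omega
  have hLa1 : 1 ≤ La q := by
    have : 1 * 1 ≤ (n + 12) * uu q := Nat.mul_le_mul (by omega) huu
    omega
  have hQ0 : 0 ≤ QQ c ω r l l' := by
    unfold QQ
    refine sum_nonneg fun H _ => sum_nonneg fun H' _ => mul_nonneg (ii_nonneg _)
      (mul_nonneg (by positivity) (mul_nonneg (wm_nonneg _) (wm_nonneg _)))
  have hmain := sum_leX hc (K0 := K0) hE hK7 hl hl' he
  refine hmain.trans ?_
  rw [add_comm, mul_add]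
  refine add_le_add ?_ ?_
  swap
  · refine mul_le_mul_of_nonneg_left ?_ hqB
    refine div_le_div_of_nonneg_right ?_ (by positivity)
    exact mul_le_mul_of_nonneg_right (by exact_mod_cast c4) hQ0
  set F0 := (univ : Finset (Option (Fin (n+2)) → ZMod q)).filter (fun H => H none ≠ 0) with hF0
  have hLa : (0:ℝ) ≤ (La q : ℝ) ^ (n+1) := by positivity
  have huR : (1:ℝ) ≤ (uu q : ℝ) := by exact_mod_cast huu
  have hu2 : (uu q : ℝ) ≤ (uu q : ℝ) ^ 2 := by nlinarith
  have hu3 : (1:ℝ) ≤ (uu q : ℝ) ^ 2 := huR.trans hu2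
  by_cases hA : ∀ a, l a ≤ l' a
  · have h1 : ∑ H ∈ F0, wm H * ((q:ℝ) ^ dm M B l r * NX c K0 ω r b l l' H) = 0 := by
      refine sum_eq_zero fun H hH => ?_
      rw [NX_none hl' hA H (mem_filter.1 hH).2, mul_zero, mul_zero]
    rw [h1]
    positivity
  · push Not at hA
    obtain ⟨a0, ha0⟩ := hA
    by_cases hA1 : ∀ a, a ≠ a0 → l a ≤ l' a
    · -- one coordinate
      set F1 := (univ : Finset (Option (Fin (n + 2)) → ZMod q)).filter (fun H => H none ≠ 0 ∧
        H (some a0) = 0 ∧ ¬ BdL (dm M B l r) K0 H) with hF1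
      have h1 : ∀ H ∈ F0, H ∉ F1 → wm H * ((q:ℝ) ^ dm M B l r * NX c K0 ω r b l l' H) = 0 := by
        intro H hH hH1
        rw [hF0, mem_filter] at hH
        rw [NX_zero_of, mul_zero, mul_zero]
        intro z hz
        apply hH1
        rw [hF1, mem_filter]
        refine ⟨mem_univ _, hH.2, EvX_zero hz ha0, fun hb => ?_⟩
        exact EvX_bad hH.2 hz (Or.inl hb)
      have hsub : F1 ⊆ F0 := by
        intro H hH
        rw [hF1, mem_filter] at hH
        rw [hF0, mem_filter]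
        exact ⟨mem_univ _, hH.2.1⟩
      rw [← sum_subset hsub h1]
      have h8' := h8 q hS (c2.trans hCq) (dm M B l r) K0 a0 hD1 hD2 (by omega) hK0'
      rw [← hF1] at h8'
      calc ∑ H ∈ F1, wm H * ((q:ℝ) ^ dm M B l r * NX c K0 ω r b l l' H)
          ≤ ∑ H ∈ F1, wm H * ((q:ℝ) ^ B *
            (min 1 (((5:ℕ):ℝ) * La q * XW (dm M B l r) K0 H))) := by
            refine sum_le_sum fun H hH => ?_
            refine mul_le_mul_of_nonneg_left ?_ (wm_nonneg H)
            exact NX_one hc hLa1 hE hK7 hl hl' he ha0 hA1 H (mem_filter.1 (hsub hH)).2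
        _ = (q:ℝ) ^ B * (∑ H ∈ F1, wm H *
            min 1 (((5:ℕ):ℝ) * La q * XW (dm M B l r) K0 H)) := by
            rw [mul_sum]
            exact sum_congr rfl fun H _ => by ring
        _ ≤ (q:ℝ) ^ B * (C8 * (La q : ℝ) ^ (n+1) * uu q) :=
            mul_le_mul_of_nonneg_left h8' hqB
        _ ≤ (q:ℝ) ^ B * (C * (La q : ℝ) ^ (n+1) * (uu q : ℝ) ^ 2) := by
            refine mul_le_mul_of_nonneg_left ?_ hqB
            refine mul_le_mul ?_ hu2 (by positivity) (by positivity)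
            refine mul_le_mul_of_nonneg_right ?_ hLa
            exact_mod_cast c2
    · -- two coordinates
      push Not at hA1
      obtain ⟨a1, hne1, ha1⟩ := hA1
      set F2 := (univ : Finset (Option (Fin (n + 2)) → ZMod q)).filter (fun H =>
        H (some a0) = 0 ∧ H (some a1) = 0) with hF2
      have h1 : ∀ H ∈ F0, wm H * ((q:ℝ) ^ dm M B l r * NX c K0 ω r b l l' H) ≤
          (q:ℝ) ^ B * (if H ∈ F2 then wm H else 0) := by
        intro H hH
        rw [hF0, mem_filter] at hH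
        split_ifs with hm
        · rw [mul_comm ((q:ℝ) ^ B)]
          exact mul_le_mul_of_nonneg_left (NX_le hc hE hK7 hl H hH.2) (wm_nonneg H)
        · rw [NX_zero_of, mul_zero, mul_zero, mul_zero]
          intro z hz
          apply hm
          rw [hF2, mem_filter]
          exact ⟨mem_univ _, EvX_zero hz ha0, EvX_zero hz ha1⟩
      calc ∑ H ∈ F0, wm H * ((q:ℝ) ^ dm M B l r * NX c K0 ω r b l l' H)
          ≤ ∑ H ∈ F0, (q:ℝ) ^ B * (if H ∈ F2 then wm H else 0) := sum_le_sum h1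
        _ = (q:ℝ) ^ B * ∑ H ∈ F0, (if H ∈ F2 then wm H else 0) := by rw [mul_sum]
        _ ≤ (q:ℝ) ^ B * ∑ H : Option (Fin (n + 2)) → ZMod q, (if H ∈ F2 then wm H else 0) := by
            refine mul_le_mul_of_nonneg_left ?_ hqB
            refine sum_le_univ_sum_of_nonneg fun H => ?_
            split_ifs
            · exact wm_nonneg H
            · exact le_rfl
        _ = (q:ℝ) ^ B * ∑ H ∈ F2, wm H := by
            rw [sum_ite_mem, univ_inter]
        _ ≤ (q:ℝ) ^ B * (C6 * (La q : ℝ) ^ (n+1)) := by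
            refine mul_le_mul_of_nonneg_left ?_ hqB
            exact sum_wm_two a0 a1 hne1.symm (fun ι _ _ hι => h6 q (c1.trans hCq) ι hι)
        _ ≤ (q:ℝ) ^ B * (C * (La q : ℝ) ^ (n+1) * (uu q : ℝ) ^ 2) := by
            refine mul_le_mul_of_nonneg_left ?_ hqB
            calc C6 * (La q : ℝ) ^ (n+1) ≤ C * (La q : ℝ) ^ (n+1) :=
                  mul_le_mul_of_nonneg_right c3 hLa
              _ = C * (La q : ℝ) ^ (n+1) * 1 := by ring
              _ ≤ _ := mul_le_mul_of_nonneg_left hu3 (by positivity)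

end Pool.Agent.Y807.SX
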